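import Pool.Agent.W763.PB.Stm

/-!
# Project PB: part Z6
-/

namespace Pool.Agent.W797.PB

open Pool.Agent.W763.PB

theorem z6 : S_R2 → S_Z1 → S_Z6 := by
  intro hR2 hZ1 k b m _ _ hk hb n hn
  obtain ⟨hb64, hsq, -, -, -⟩ := hR2 k b hk hb
  have hk0 : 0 < k := by linarith
  have hk1 : 1 ≤ k := by linarith
  have hm0 : 0 < m := Nat.pos_of_ne_zero (NeZero.ne m)
  have hmR : (0 : ℝ) < (m : ℝ) := by exact_mod_cast hm0
  have hb2 : (0 : ℝ) < (b : ℝ) - 2 := by linarith
  have hb64' : 64 ≤ b := by exact_mod_cast hb64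
  have hbm : m < b * m := by nlinarith
  have hsq2 : Real.sqrt 2 ≤ 2 := by
    rw [Real.sqrt_le_left (by norm_num)]
    norm_num
  have term : ∀ t : ZMod (b * m), (sw k b m t) ^ 2 * (Om k b m (t + n)) ^ 2 ≤
      2 * (Om k b m (t + n)) ^ 2 := by
    intro t
    by_cases ht : t.val < 2 * m
    · have : sw k b m t = 0 := by
        unfold sw
        rw [if_pos ht]
      rw [this]
      have := sq_nonneg (Om k b m (t + n))
      nlinarith
    · by_cases ho : (t + (n : ZMod (b * m))).val < 2 * m
      · have hnv : ((n : ZMod (b * m))).val = n := by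
          rw [ZMod.val_natCast]
          exact Nat.mod_eq_of_lt (by omega)
        have hwrap : b * m ≤ t.val + n := by
          by_contra hcon
          push Not at hcon
          rw [ZMod.val_add, hnv, Nat.mod_eq_of_lt hcon] at ho
          omega
        have hw : ww k b m t =
            k ^ ((((b * m : ℕ) : ℝ) - (t.val : ℝ)) / (((b : ℝ) - 2) * (m : ℝ))) := by
          unfold ww
          rw [if_neg ht]
        have hw0 : 0 ≤ ww k b m t := by
          rw [hw]
          positivity
        have hw2 : ww k b m t ≤ 2 := by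
          rw [hw]
          refine le_trans (Real.rpow_le_rpow_of_exponent_le hk1 ?_) (le_trans hsq hsq2)
          rw [div_le_div_iff₀ (by positivity) hb2]
          have h1 : (((b * m : ℕ) : ℝ) - (t.val : ℝ)) ≤ (m : ℝ) := by
            have h2 : ((b * m : ℕ) : ℝ) ≤ (t.val : ℝ) + (n : ℝ) := by exact_mod_cast hwrap
            have h3 : (n : ℝ) ≤ (m : ℝ) := by exact_mod_cast hn
            linarith
          nlinarith
        have hs : sw k b m t ^ 2 = ww k b m t := by
          unfold sw
          rw [if_neg ht, Real.sq_sqrt hw0]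
        rw [hs]
        exact mul_le_mul_of_nonneg_right hw2 (sq_nonneg _)
      · have : Om k b m (t + n) = 0 := by
          unfold Om
          rw [if_neg ho]
        rw [this]
        simp
  calc ∑ t : ZMod (b * m), (sw k b m t) ^ 2 * (Om k b m (t + n)) ^ 2
      ≤ ∑ t : ZMod (b * m), 2 * (Om k b m (t + n)) ^ 2 := Finset.sum_le_sum (fun t _ => term t)
    _ = 2 * ∑ t : ZMod (b * m), (Om k b m (t + n)) ^ 2 := by rw [Finset.mul_sum]
    _ = 2 * ∑ t : ZMod (b * m), (Om k b m t) ^ 2 := by
        congr 1
        exact Equiv.sum_comp (Equiv.addRight (n : ZMod (b * m))) (fun t => (Om k b m t) ^ 2)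
    _ = 2 := by rw [hZ1 k b m hk hb]; norm_num

end Pool.Agent.W797.PB
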